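import Mathlib
import Pool.Agent.R291.RMW.V2

set_option autoImplicit false

/-!
# Long gaps in all short intervals, in random models of the primes

Cramér's conjecture says that the largest gap between primes up to `X` has the exact order
`(log X)²`.  For EVERY sequential random model of the primes (the integers are decided one after the
other, only integers coprime to a fixed `Q` can be chosen, and the conditional probability of
choosing `n + 1` (coprime to `Q`) given the past is asymptotic to `(Q / φ(Q)) / log n`; no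
independence is assumed; for `Q = 1` Cramér's model and the Hawkins random sieve are examples) we
find the largest gap up to `X` and, moreover, the number of the gaps longer than `b (log x)²` in
EVERY short interval `(x, x + x^γ]`.
-/

open MeasureTheory Filter
open scoped Topology

namespace Pool.Agent.Results.MP_2033ac_nt.LongGapsInAllShortIntervals

/-- `q < q'` are consecutive elements of `S` -/
def Consecutive (S : Set ℕ) (q q' : ℕ) : Prop := q ∈ S ∧ q' ∈ S ∧ q < q' ∧ ∀ m, q < m → m < q' → m ∉ S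

/-- the largest difference of consecutive elements of `S` which are at most `X` -/
noncomputable def largestGap (S : Set ℕ) (X : ℝ) : ℕ :=
  sSup {g : ℕ | ∃ q q', Consecutive S q q' ∧ (q' : ℝ) ≤ X ∧ g = q' - q}

/-- the number of the `q` in `(x, x + x^γ]` such that `q` and some `q' ≥ q + b (log x)²` are
consecutive elements of `S` -/
noncomputable def longGaps (S : Set ℕ) (x : ℕ) (γ b : ℝ) : ℕ :=
  {q : ℕ | x < q ∧ (q : ℝ) ≤ x + (x : ℝ) ^ γ ∧
    ∃ q', Consecutive S q q' ∧ b * Real.log x ^ 2 ≤ (q' : ℝ) - q}.ncard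

end Pool.Agent.Results.MP_2033ac_nt.LongGapsInAllShortIntervals

open Pool.Agent.Results.MP_2033ac_nt.LongGapsInAllShortIntervals Pool.Agent.R528.RM Pool.Agent.R291.RMW

/-- Let `A n` be the event that `n` belongs to a random set `S` adapted to a filtration `ℱ`, let
`Q ≥ 1`, let no integer which is not coprime to `Q` be chosen, and let the conditional probability of
`A (n + 1)` given `ℱ n`, times `log n`, tend to `Q / φ(Q)` along the `n` with `n + 1` coprime to `Q`,
almost surely.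
(1) Almost surely the largest gap between consecutive elements of `S` up to `X` is asymptotic to
`(log X)²`.
(2) For `0 < b < γ ≤ 1` and `ε > 0`, almost surely, for ALL large `x`, the number of the gaps of
length at least `b (log x)²` after the elements of `S` in `(x, x + x^γ]` lies between `x^(γ-b-ε)` and
`x^(γ-b+ε)`.
(3) If `0 < γ < 1`, `γ < b` and `(k + 1) (b - γ) > 1 - γ` then, almost surely, for ALL large `x` this
number is at most `k`. -/
theorem Pool.Agent.Results.MP_2033ac_nt.LongGapsInAllShortIntervals.result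
    {Ω : Type} [mΩ : MeasurableSpace Ω] (μ : Measure Ω) [IsProbabilityMeasure μ]
    (ℱ : Filtration ℕ mΩ) (A : ℕ → Set Ω) (hA : ∀ n, MeasurableSet[ℱ n] (A n))
    (Q : ℕ) (hQ : 0 < Q) (hcop : ∀ n, ¬ Nat.Coprime n Q → A n = ∅)
    (hd : ∀ᵐ ω ∂μ, Tendsto (fun n : ℕ =>
      (μ[(A (n + 1)).indicator (fun _ => (1 : ℝ)) | ℱ n]) ω * Real.log n)
      (atTop ⊓ 𝓟 {n : ℕ | Nat.Coprime (n + 1) Q}) (𝓝 ((Q : ℝ) / Nat.totient Q))) :
    (∀ᵐ ω ∂μ, Tendsto (fun X : ℝ => (largestGap {m | ω ∈ A m} X : ℝ) / Real.log X ^ 2) atTop (𝓝 1)) ∧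
    (∀ γ b ε : ℝ, 0 < b → b < γ → γ ≤ 1 → 0 < ε → ∀ᵐ ω ∂μ, ∀ᶠ x : ℕ in atTop,
      (x : ℝ) ^ (γ - b - ε) ≤ longGaps {m | ω ∈ A m} x γ b ∧
        (longGaps {m | ω ∈ A m} x γ b : ℝ) ≤ (x : ℝ) ^ (γ - b + ε)) ∧
    (∀ (γ b : ℝ) (k : ℕ), 0 < γ → γ < 1 → γ < b → 1 - γ < (k + 1) * (b - γ) →
      ∀ᵐ ω ∂μ, ∀ᶠ x : ℕ in atTop, longGaps {m | ω ∈ A m} x γ b ≤ k) := by
  have hprof := Pool.Agent.R528.RM.dens_profile (μ := μ) (ℱ := ℱ) hA Q hQ hcop hd
  refine ⟨?_, ?_, ?_⟩
  · -- the largest gap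
    have hlow : ∀ᵐ ω ∂μ, ∀ n : ℕ, ∀ᶠ x : ℕ in atTop, ∃ q q' : ℕ, Cons {k | ω ∈ A k} q q' ∧ x < q ∧
        (q' : ℝ) ≤ x + (x : ℝ) ^ (1 - 1 / ((n : ℝ) + 3)) ∧ (1 - 2 / ((n : ℝ) + 3)) * Real.log x ^ 2 < (q' : ℝ) - q := by
      refine ae_all_iff.2 fun n => ?_
      have h1 : (0 : ℝ) < 1 / ((n : ℝ) + 3) := by positivity
      have h2 : (2 : ℝ) / ((n : ℝ) + 3) < 1 := by
        rw [div_lt_one (by positivity)]
        have : (0 : ℝ) ≤ n := Nat.cast_nonneg _
        linarith
      have h3 : (2 : ℝ) / ((n : ℝ) + 3) = 2 * (1 / ((n : ℝ) + 3)) := by ring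
      exact cons_lower (μ := μ) (ℱ := ℱ) hA hQ hprof (by linarith) (by linarith) (by linarith)
    filter_upwards [cons_upper (μ := μ) (ℱ := ℱ) hA hQ hprof, hlow] with ω w1 w2
    have hinf : {m | ω ∈ A m}.Infinite := by
      refine infinite_of fun K => ?_
      obtain ⟨q, hq, hqK⟩ := ((w1 2 (by norm_num)).and (eventually_ge_atTop K)).exists
      obtain ⟨m, hm, hqm, _⟩ := hq.1
      exact ⟨m, by omega, hm⟩
    have hX2 : Tendsto (fun X : ℝ => Real.log X ^ 2) atTop atTop := (tendsto_pow_atTop two_ne_zero).comp Real.tendsto_log_atTop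
    -- the upper bound
    have hup : ∀ ε : ℝ, 0 < ε → ∀ᶠ X : ℝ in atTop, ∀ q q', Consecutive {m | ω ∈ A m} q q' → (q' : ℝ) ≤ X →
        ((q' - q : ℕ) : ℝ) ≤ (1 + ε) * Real.log X ^ 2 := by
      intro ε hε
      obtain ⟨q₀, hq₀⟩ := eventually_atTop.1 (w1 (1 + ε) (by linarith))
      obtain ⟨m, hm, hmq⟩ := hinf.exists_gt (max q₀ 1)
      filter_upwards [hX2.eventually_ge_atTop (m : ℝ), eventually_ge_atTop 1] with X g1 g2 q q' hq hqX
      have hq' : ((q' - q : ℕ) : ℝ) = (q' : ℝ) - q := Nat.cast_sub hq.2.2.1.le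
      rw [hq']
      rcases lt_or_ge q q₀ with h | h
      · have h1 : q' ≤ m := by
          by_contra hcon
          exact hq.2.2.2 m (by omega) (by omega) hm
        have h2 : (q' : ℝ) ≤ m := by exact_mod_cast h1
        have h3 : (0 : ℝ) ≤ q := Nat.cast_nonneg _
        have h4 : 0 ≤ ε * Real.log X ^ 2 := by positivity
        linarith
      · have h1 := (hq₀ q h).2 q' hq
        rcases Nat.eq_zero_or_pos q with h0 | h0
        · rw [h0] at h1 ⊢
          rw [Nat.cast_zero, Real.log_zero] at h1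
          have h4 : 0 ≤ (1 + ε) * Real.log X ^ 2 := by positivity
          rw [Nat.cast_zero]
          linarith
        · have h2 : Real.log (q : ℝ) ≤ Real.log X := by
            apply Real.log_le_log (by exact_mod_cast h0)
            have : (q : ℝ) < q' := by exact_mod_cast hq.2.2.1
            linarith
          have h3 : Real.log (q : ℝ) ^ 2 ≤ Real.log X ^ 2 := pow_le_pow_left₀ (Real.log_natCast_nonneg q) h2 2
          have h4 := mul_le_mul_of_nonneg_left h3 (show 0 ≤ 1 + ε by linarith)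
          linarith
    have hbdd : ∀ X : ℝ, BddAbove {g : ℕ | ∃ q q', Consecutive {m | ω ∈ A m} q q' ∧ (q' : ℝ) ≤ X ∧ g = q' - q} := by
      intro X
      refine ⟨⌊X⌋₊, ?_⟩
      rintro g ⟨q, q', hq, hqX, rfl⟩
      have : q' ≤ ⌊X⌋₊ := Nat.le_floor hqX
      omega
    have hgup : ∀ ε : ℝ, 0 < ε → ∀ᶠ X : ℝ in atTop, (largestGap {m | ω ∈ A m} X : ℝ) ≤ (1 + ε) * Real.log X ^ 2 := by
      intro ε hε
      filter_upwards [hup ε hε] with X hX
      have h1 : largestGap {m | ω ∈ A m} X ≤ ⌊(1 + ε) * Real.log X ^ 2⌋₊ := by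
        apply csSup_le'
        rintro g ⟨q, q', hq, hqX, rfl⟩
        exact Nat.le_floor (hX q q' hq hqX)
      calc (largestGap {m | ω ∈ A m} X : ℝ) ≤ (⌊(1 + ε) * Real.log X ^ 2⌋₊ : ℕ) := by exact_mod_cast h1
        _ ≤ _ := Nat.floor_le (by positivity)
    -- the lower bound
    have hglow : ∀ ε : ℝ, 0 < ε → ∀ᶠ X : ℝ in atTop, (1 - ε) * Real.log X ^ 2 ≤ (largestGap {m | ω ∈ A m} X : ℝ) := by
      intro ε hε
      obtain ⟨n, hn⟩ := exists_nat_gt (8 / ε)
      have hn' : 8 / ((n : ℝ) + 3) < ε := by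
        rw [div_lt_iff₀ hε] at hn
        rw [div_lt_iff₀ (by positivity)]
        nlinarith
      have hfl : Tendsto (fun X : ℝ => ⌊X / 2⌋₊) atTop atTop := tendsto_nat_floor_atTop.comp (tendsto_id.atTop_div_const (by norm_num))
      filter_upwards [hfl.eventually (w2 n), Real.tendsto_log_atTop.eventually_ge_atTop (4 * ((n : ℝ) + 3)), eventually_ge_atTop 4] with
        X ⟨q, q', hq, q1, q2, q3⟩ g1 g2
      set x : ℕ := ⌊X / 2⌋₊ with hx
      have hxle : (x : ℝ) ≤ X / 2 := Nat.floor_le (by linarith)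
      have hxge : X / 2 < x + 1 := Nat.lt_floor_add_one _
      have hx1 : (1 : ℝ) ≤ x := by
        have : 1 ≤ x := Nat.le_floor (by push_cast; linarith)
        exact_mod_cast this
      have hn3 : (0 : ℝ) < (n : ℝ) + 3 := by positivity
      have hpow : (x : ℝ) ^ (1 - 1 / ((n : ℝ) + 3)) ≤ x := by
        calc (x : ℝ) ^ (1 - 1 / ((n : ℝ) + 3)) ≤ (x : ℝ) ^ (1 : ℝ) := by
              apply Real.rpow_le_rpow_of_exponent_le hx1
              have : 0 < 1 / ((n : ℝ) + 3) := by positivity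
              linarith
          _ = x := Real.rpow_one _
      have hq'X : (q' : ℝ) ≤ X := by linarith
      have h1 : q' - q ≤ largestGap {m | ω ∈ A m} X := le_csSup (hbdd X) ⟨q, q', hq, hq'X, rfl⟩
      have h2 : ((q' - q : ℕ) : ℝ) = (q' : ℝ) - q := Nat.cast_sub hq.2.2.1.le
      have h3 : ((q' - q : ℕ) : ℝ) ≤ (largestGap {m | ω ∈ A m} X : ℝ) := by exact_mod_cast h1
      -- the logarithms
      set L := Real.log X with hL
      have hlx : L - 2 ≤ Real.log x := by
        have h4 : X / 4 ≤ x := by linarith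
        have h5 := Real.log_le_log (by linarith) h4
        rw [Real.log_div (by linarith) (by norm_num), show (4 : ℝ) = 2 ^ 2 by norm_num, Real.log_pow] at h5
        have := Real.log_two_lt_d9
        push_cast at h5
        linarith
      have hL0 : 12 ≤ L := by
        have : (0 : ℝ) ≤ n := Nat.cast_nonneg _
        linarith
      have h6 : (L - 2) ^ 2 ≤ Real.log x ^ 2 := pow_le_pow_left₀ (by linarith) hlx 2
      set t : ℝ := 1 / ((n : ℝ) + 3) with ht
      have ht0 : 0 < t := by positivity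
      have ht2 : 2 / ((n : ℝ) + 3) = 2 * t := by rw [ht]; ring
      have ht8 : 8 / ((n : ℝ) + 3) = 8 * t := by rw [ht]; ring
      have htL : 4 ≤ t * L := by
        rw [ht, div_mul_eq_mul_div, one_mul, le_div_iff₀ hn3]
        linarith
      have ht3 : t ≤ 1 / 3 := by
        rw [ht]
        apply one_div_le_one_div_of_le (by norm_num)
        have : (0 : ℝ) ≤ n := Nat.cast_nonneg _
        linarith
      rw [ht2] at q3
      rw [ht8] at hn'
      have h7 : (1 - t) * L ^ 2 ≤ (L - 2) ^ 2 := by nlinarith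
      have h8 : (1 - 2 * t) * ((1 - t) * L ^ 2) ≤ (1 - 2 * t) * Real.log x ^ 2 :=
        mul_le_mul_of_nonneg_left (h7.trans h6) (by linarith)
      have h9 : (1 - ε) * L ^ 2 ≤ (1 - 2 * t) * ((1 - t) * L ^ 2) := by
        have e : (1 - 2 * t) * ((1 - t) * L ^ 2) = (1 - 3 * t + 2 * t ^ 2) * L ^ 2 := by ring
        rw [e]
        apply mul_le_mul_of_nonneg_right _ (by positivity)
        nlinarith
      linarith
    rw [Metric.tendsto_nhds]
    intro ε hε
    filter_upwards [hgup (ε / 2) (by linarith), hglow (ε / 2) (by linarith), hX2.eventually_gt_atTop 0] with X g1 g2 g3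
    rw [Real.dist_eq, abs_lt]
    constructor
    · have : 1 - ε / 2 ≤ (largestGap {m | ω ∈ A m} X : ℝ) / Real.log X ^ 2 := by
        rw [le_div_iff₀ g3]
        exact g2
      linarith
    · have : (largestGap {m | ω ∈ A m} X : ℝ) / Real.log X ^ 2 ≤ 1 + ε / 2 := by
        rw [div_le_iff₀ g3]
        exact g1
      linarith
  · intro γ b ε hb0 hbγ hγ1 hε
    filter_upwards [LG_lower (μ := μ) (ℱ := ℱ) hA hQ hprof hb0 hbγ hγ1 hε,
      LG_upper (μ := μ) (ℱ := ℱ) hA hQ hprof hb0 hbγ hγ1 hε] with ω w1 w2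
    filter_upwards [w1, w2] with x g1 g2
    exact ⟨g1, g2⟩
  · intro γ b k hγ0 hγ1 hγb hk
    filter_upwards [LG_few (μ := μ) (ℱ := ℱ) hA hQ hprof hγ0 hγ1 hγb hk] with ω w1
    filter_upwards [w1] with x g1
    exact g1
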